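import Pool.Agent.Helper58.R3.Stmts

/-!
# DIST: two of the three neighbours of `v0` have a common neighbour in `X`
-/

set_option autoImplicit false
open Classical

namespace Pool.Agent.Helper58.R3

/-- there is a walk of length `n` from `v0` to another element of `X` -/
def dist_W {m : ℕ} (H : SimpleGraph (Fin m)) (v0 : Fin m) (X : Finset (Fin m)) (n : ℕ) : Prop :=
  ∃ p : ℕ → Fin m, p 0 = v0 ∧ p n ∈ X ∧ p n ≠ v0 ∧ ∀ k < n, H.Adj (p k) (p (k + 1))

theorem dist_walk {m : ℕ} {H : SimpleGraph (Fin m)} {v0 x : Fin m}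
    (h : Relation.ReflTransGen H.Adj v0 x) :
    ∃ (n : ℕ) (p : ℕ → Fin m), p 0 = v0 ∧ p n = x ∧ ∀ k < n, H.Adj (p k) (p (k + 1)) := by
  induction h with
  | refl => exact ⟨0, fun _ => v0, rfl, rfl, fun k hk => absurd hk (Nat.not_lt_zero k)⟩
  | @tail b c _ hbc ih =>
    obtain ⟨n, p, h0, hn, hp⟩ := ih
    refine ⟨n + 1, fun k => if k ≤ n then p k else c, ?_, ?_, ?_⟩
    · simp only [Nat.zero_le, if_true]
      exact h0
    · simp only [Nat.not_succ_le_self, if_false]
    · intro k hk
      by_cases hkn : k < n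
      · have e1 : k ≤ n := by omega
        have e2 : k + 1 ≤ n := by omega
        simp only [e1, e2, if_true]
        exact hp k hkn
      · have e0 : k = n := by omega
        subst e0
        simp only [le_refl, if_true, Nat.not_succ_le_self, if_false]
        rw [hn]
        exact hbc

theorem dist_exists {m : ℕ} {H : SimpleGraph (Fin m)} {v0 : Fin m} {A : Type}
    {X : Finset (Fin m)} {L D : A → Finset (Fin m)} {Φ : A → Fin m → Fin m} {i : Fin 3 → A}
    {a : Fin 3 → Fin m} (h : Cfg2 H v0 X L D Φ i a) : ∃ n, dist_W H v0 X n := by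
  have hc := h.c
  set R := (Finset.univ : Finset (Fin m)).filter (fun x => Relation.ReflTransGen H.Adj v0 x)
    with hR
  have hv : v0 ∈ R := Finset.mem_filter.2 ⟨Finset.mem_univ _, Relation.ReflTransGen.refl⟩
  have hnb : nb H R = ∅ := by
    apply Finset.eq_empty_of_forall_notMem
    intro y hy
    obtain ⟨_, hyR, x, hx, hxy⟩ := Finset.mem_filter.1 hy
    exact hyR (Finset.mem_filter.2 ⟨Finset.mem_univ _,
      (Finset.mem_filter.1 hx).2.tail hxy⟩)
  have hall := hc.k3 R ⟨v0, hv⟩ (by rw [hnb]; simp)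
  have hcard := h.D3 (i 0) ⟨a 0, h.aL 0⟩
  obtain ⟨x, hx, hx0⟩ := Finset.exists_mem_ne (s := D (i 0)) (by omega) v0
  have hxR : x ∈ R := by
    rcases hall x with h1 | h1
    · exact h1
    · rw [hnb] at h1
      exact absurd h1 (Finset.notMem_empty _)
  obtain ⟨n, p, h0, hn, hp⟩ := dist_walk (Finset.mem_filter.1 hxR).2
  exact ⟨n, p, h0, by rw [hn]; exact hc.DX _ _ hx, by rw [hn]; exact hx0, hp⟩

theorem st_DIST : ST_DIST := by
  intro m H v0 A X L D Φ i a h
  have hc := h.c
  have hex := dist_exists h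
  obtain ⟨n, hW, hmin⟩ : ∃ n, dist_W H v0 X n ∧ ∀ k < n, ¬ dist_W H v0 X k :=
    ⟨Nat.find hex, Nat.find_spec hex, fun k hk => Nat.find_min hex hk⟩
  obtain ⟨p, h0, hnX, hnv, hp⟩ := hW
  have hin : ∀ k, 0 < k → k < n → p k ∉ X := by
    intro k hk hkn hkX
    by_cases hkv : p k = v0
    · refine hmin (n - k) (by omega) ⟨fun j => p (k + j), ?_, ?_, ?_, ?_⟩
      · exact hkv
      · have : k + (n - k) = n := by omega
        simp only [this]
        exact hnX
      · have : k + (n - k) = n := by omega
        simp only [this]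
        exact hnv
      · intro j hj
        exact hp (k + j) (by omega)
    · exact hmin k hkn ⟨p, h0, hkX, hkv, fun j hj => hp j (by omega)⟩
  have hn2 : 2 ≤ n := by
    by_contra hcon
    have hn01 : n = 0 ∨ n = 1 := by omega
    rcases hn01 with h1 | h1
    · rw [h1] at hnv
      exact hnv h0
    · have h2 := hp 0 (by omega)
      rw [h0] at h2
      rw [h1] at hnX
      exact hc.ind v0 h.vX (p 1) hnX h2
  obtain ⟨j, hj⟩ : ∃ j, p 1 = a j := by
    have h2 := hp 0 (by omega)
    rw [h0] at h2
    exact (h.Nv _).1 h2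
  have hL : ∀ k, 1 ≤ k → k < n → p k ∈ L (i j) := by
    intro k
    induction k with
    | zero => intro h1; omega
    | succ k ih =>
      intro _ hkn
      by_cases hk0 : k = 0
      · subst hk0
        rw [show (0 : ℕ) + 1 = 1 from rfl, hj]
        exact h.aL j
      · have h3 := ih (by omega) (by omega)
        rcases hc.nbL (i j) _ h3 _ (hp k (by omega)) with h4 | h4
        · exact h4
        · exact absurd (hc.DX _ _ h4) (hin (k + 1) (by omega) hkn)
  have hnD : p n ∈ D (i j) := by
    have h3 := hL (n - 1) (by omega) (by omega)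
    have h4 := hp (n - 1) (by omega)
    rw [show n - 1 + 1 = n from by omega] at h4
    rcases hc.nbL (i j) _ h3 _ h4 with h5 | h5
    · exact absurd hnX (hc.LX _ _ h5)
    · exact h5
  have hmem : ∀ k ≤ n, p k ∈ L (i j) ∪ D (i j) := by
    intro k hk
    rw [Finset.mem_union]
    by_cases hk0 : k = 0
    · subst hk0
      rw [h0]
      exact Or.inr (h.vD j)
    · by_cases hkn : k = n
      · subst hkn
        exact Or.inr hnD
      · exact Or.inl (hL k (by omega) (by omega))
  have hg : ∀ k < n, H.Adj (Φ (i j) (p k)) (Φ (i j) (p (k + 1))) := fun k hk =>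
    hc.hom (i j) _ (hmem k (by omega)) _ (hmem (k + 1) (by omega)) (hp k hk)
  have hg0 : H.Adj v0 (Φ (i j) (p 0)) := by
    rw [h0]
    exact hc.ΦD (i j) v0 (h.vD j)
  have hgn : H.Adj v0 (Φ (i j) (p n)) := hc.ΦD (i j) _ hnD
  obtain ⟨s, hs⟩ := (h.Nv _).1 hg0
  obtain ⟨t, ht⟩ := (h.Nv _).1 hgn
  have hst : s ≠ t := by
    intro he
    have h5 := hc.inj (i j) _ (hmem 0 (by omega)) _ (hmem n le_rfl) (by rw [hs, ht, he])
    exact hnv (by rw [← h5, h0])
  have hgv : ∀ k ≤ n, Φ (i j) (p k) ≠ v0 := by
    intro k hk he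
    rcases Finset.mem_union.1 (hmem k hk) with h5 | h5
    · exact (hc.ΦL _ _ h5).1 he
    · have := hc.ΦD _ _ h5
      rw [he] at this
      exact H.loopless.irrefl _ this
  obtain ⟨k, hk0, hkn, hkX⟩ : ∃ k, 0 < k ∧ k < n ∧ Φ (i j) (p k) ∈ X := by
    by_contra hcon
    push Not at hcon
    have hLs : ∀ k ≤ n, Φ (i j) (p k) ∈ L (i s) := by
      intro k
      induction k with
      | zero =>
        intro _
        rw [hs]
        exact h.aL s
      | succ k ih =>
        intro hk
        rcases hc.nbL (i s) _ (ih (by omega)) _ (hg k (by omega)) with h6 | h6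
        · exact h6
        · exfalso
          have h7 := hc.DX _ _ h6
          by_cases hkn : k + 1 = n
          · rw [hkn, ht] at h7
            exact hc.LX _ _ (h.aL t) h7
          · exact hcon (k + 1) (by omega) (by omega) h7
    have h8 := hLs n le_rfl
    rw [ht] at h8
    exact hst (h.ii (hc.LL _ _ _ h8 (h.aL t)))
  have w1 : n ≤ k + 1 := by
    by_contra hcon
    refine hmin (k + 1) (by omega)
      ⟨fun l => if l = 0 then v0 else Φ (i j) (p (l - 1)), ?_, ?_, ?_, ?_⟩
    · simp
    · simpa using hkX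
    · simpa using hgv k (by omega)
    · intro l hl
      by_cases hl0 : l = 0
      · subst hl0
        simpa using hg0
      · have e1 : l - 1 + 1 = l := by omega
        have e2 := hg (l - 1) (by omega)
        rw [e1] at e2
        simpa [hl0] using e2
  have w2 : k ≤ 1 := by
    by_contra hcon
    have e3 : n - (n - k + 1 - 1) = k := by omega
    refine hmin (n - k + 1) (by omega)
      ⟨fun l => if l = 0 then v0 else Φ (i j) (p (n - (l - 1))), ?_, ?_, ?_, ?_⟩
    · simp
    · simp only [Nat.succ_ne_zero, if_false, e3]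
      exact hkX
    · simp only [Nat.succ_ne_zero, if_false, e3]
      exact hgv k (by omega)
    · intro l hl
      by_cases hl0 : l = 0
      · subst hl0
        simpa using hgn
      · have e1 : n - (l - 1) = (n - (l + 1 - 1)) + 1 := by omega
        have e2 := hg (n - (l + 1 - 1)) (by omega)
        rw [← e1] at e2
        simp only [hl0, if_false, Nat.succ_ne_zero]
        exact e2.symm
  have hk1 : k = 1 := by omega
  have hn2' : n = 2 := by omega
  subst hk1
  subst hn2'
  refine ⟨s, t, Φ (i j) (p 1), hst, hkX, hgv 1 (by omega), ?_, ?_⟩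
  · rw [← hs]
    exact hg 0 (by omega)
  · rw [← ht]
    exact (hg 1 (by omega)).symm

end Pool.Agent.Helper58.R3
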