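import Pool.Agent.Helper58.R3.Stmts

/-!
# R1: the never entering elements of the boundary
-/

set_option autoImplicit false
open Classical

namespace Pool.Agent.Helper58.R3

theorem st_R1 (h1 : ST_LYF) : ST_R1 := by
  intro m H v0 Z ψ k hs
  obtain ⟨_, _, _, _, hper, _, _, hinj, hadj, _, _⟩ := h1 m H v0 Z ψ k hs
  set S := (nb H Z).filter (fun q => Per Z ψ q) with hS
  have hmap : ∀ q ∈ S, H.Adj (ψ^[k] v0) (ψ^[k + 1] q) ∧ ψ^[k + 1] q ∈ S := by
    intro q hq
    obtain ⟨hqn, hqp⟩ := Finset.mem_filter.1 hq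
    obtain ⟨_, hqZ, z, hz, hzq⟩ := Finset.mem_filter.1 hqn
    have e1 : H.Adj v0 (ψ q) := by
      have := hs.we.hom z q hzq (fun h => hqZ h.2)
      rwa [hs.we.zv z hz] at this
    have e2 := hadj v0 (ψ q) k e1 (fun t ht => Or.inl (hs.kl.2 t ht))
    rw [← Function.iterate_succ_apply ψ k q] at e2
    refine ⟨e2, Finset.mem_filter.2 ⟨Finset.mem_filter.2 ⟨Finset.mem_univ _, hqp (k + 1),
      ψ^[k] v0, hs.kl.1, e2⟩, hper q (k + 1) hqp⟩⟩
  have hinjS : Set.InjOn (fun q => ψ^[k + 1] q) (S : Set (Fin m)) := by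
    intro x hx y hy hxy
    have hx' := (Finset.mem_filter.1 (Finset.mem_coe.1 hx)).2
    have hy' := (Finset.mem_filter.1 (Finset.mem_coe.1 hy)).2
    exact hinj x y (k + 1) (fun t _ => hx' t) (fun t _ => hy' t) hxy
  have himg : S.image (fun q => ψ^[k + 1] q) = S := by
    refine Finset.eq_of_subset_of_card_le ?_ ?_
    · intro y hy
      obtain ⟨x, hx, rfl⟩ := Finset.mem_image.1 hy
      exact (hmap x hx).2
    · rw [Finset.card_image_of_injOn hinjS]
  have hsurj : ∀ q ∈ S, ∃ q' ∈ S, ψ^[k + 1] q' = q := by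
    intro q hq
    rw [← himg] at hq
    obtain ⟨x, hx, hxq⟩ := Finset.mem_image.1 hq
    exact ⟨x, hx, hxq⟩
  refine ⟨?_, ?_⟩
  · intro q hq hqp
    have hqS : q ∈ S := Finset.mem_filter.2 ⟨hq, hqp⟩
    obtain ⟨q', hq', rfl⟩ := hsurj q hqS
    exact ⟨(hmap q' hq').1, (Finset.mem_filter.1 (hmap _ hqS).2).1⟩
  · intro q hqp hq
    have hqS : ψ^[k + 1] q ∈ S := Finset.mem_filter.2 ⟨hq, hper q (k + 1) hqp⟩
    obtain ⟨q', hq', he⟩ := hsurj _ hqS
    have hq'p := (Finset.mem_filter.1 hq').2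
    have := hinj q' q (k + 1) (fun t _ => hq'p t) (fun t _ => hqp t) he
    rw [← this]
    exact (Finset.mem_filter.1 hq').1

end Pool.Agent.Helper58.R3
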