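import Pool.Agent.Helper58.R3.Main
import Pool.Agent.Helper59.RS3.HS
import Pool.Agent.Helper11.R3.LYF
import Pool.Agent.Helper14.R3.KEX
import Pool.Agent.Helper15.R3.BS
import Pool.Agent.Helper2.R3.R2
import Pool.Agent.Helper24.R3.TZ
import Pool.Agent.Helper3.R3.CN
import Pool.Agent.Helper3.R3.EO
import Pool.Agent.Helper35.R3.BF
import Pool.Agent.Helper38.R3.VK
import Pool.Agent.Helper45.R3.CFG
import Pool.Agent.Helper48.R3.NOC
import Pool.Agent.Helper49.R3.KC3
import Pool.Agent.Helper53.R3.KK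
import Pool.Agent.Helper58.R3.DIST
import Pool.Agent.Helper58.R3.R1
import Pool.Agent.Helper63.R3.CB
import Pool.Agent.Helper68.R3.AV
import Pool.Agent.Helper58.R3.CLS
import Pool.Agent.Helper72.R3.LA
import Pool.Agent.Helper77.R3.SL
import Pool.Agent.Helper78.R3.CA
import Pool.Agent.Helper79.R3.SZ
import Pool.Agent.Helper81.R3.LEAF
import Pool.Agent.Helper83.R3.TRI
import Pool.Agent.Helper91.R3.CS
import Pool.Agent.Helper94.R3.NG

/-!
# MP_7ef5a1_co: 3-connected triangle-free graphs of minimum degree three, assembly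
-/

set_option autoImplicit false
open Classical

namespace Pool.Agent.Helper58.R3

open Pool.Agent.Helper58.RS (DSet)

theorem main {m : ℕ} (H : SimpleGraph (Fin m)) (hm : 4 ≤ m)
    (h3 : ∀ S : Finset (Fin m), S.card ≤ 2 → (H.induce {v | v ∉ S}).Connected)
    (htf : H.CliqueFree 3) (hδ : H.minDegree = 3) :
    sInf (DSet H) = 2 * (H.minDegree - 1) + 1 := by
  have hKEX := st_KEX
  have hLYF := st_LYF
  have hR1 := st_R1 hLYF
  have hR2 := st_R2
  have hCA := st_CA hLYF hR1 hR2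
  have hCB := st_CB hLYF hR1 hR2
  have hCS := st_CS
  have hBS := st_BS hLYF hR2
  have hLA := st_LA hLYF
  have hTZ := st_TZ hLYF hLA hR2
  have hBF := st_BF hLYF hLA hR2
  have hSL := st_SL hKEX hLYF hR1 hR2 hCA hCB hCS hBS hTZ hBF
  have hLEAF := st_LEAF
  have hTRI := st_TRI hLEAF hSL
  have hAV := Pool.Agent.Helper68.R3.st_AV
  have hVK := st_VK hAV
  have hKK := st_KK hAV
  have hCN := st_CN
  have hDIST := st_DIST
  have hEO := st_EO hVK hKK
  have hNG := st_NG hVK hKK hCN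
  have hCLS := st_CLS hCN hDIST hEO hNG
  have hSZ := st_SZ
  have hNOC := st_NOC hTRI hCLS hSZ
  have hCFG := st_CFG
  have hKC3 := st_KC3
  exact main3 hNOC hCFG hKC3 (Pool.Agent.Helper77.SND.st_HS Pool.Agent.Helper77.SND.st_TWO)
    H hm h3 htf hδ

end Pool.Agent.Helper58.R3
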