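import Pool.Agent.Helper58.R3.Stmts
import Pool.Agent.Helper28.RS.Main

/-!
# MP_7ef5a1_co: the main theorem for minimum degree three, from the modules
-/

set_option autoImplicit false
open Classical

namespace Pool.Agent.Helper58.R3

open Pool.Agent.Helper28.RS (TF amal Bet)
open Pool.Agent.Helper77.SND (Copy C3)
open Pool.Agent.Helper58.RS (DSet)

theorem card_N {m : ℕ} (H : SimpleGraph (Fin m)) (v : Fin m) : (N H v).card = H.degree v := by
  unfold N
  rw [← SimpleGraph.card_neighborFinset_eq_degree]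
  congr 1
  ext x
  simp

theorem bet_of_eq {m w d : ℕ} {H : SimpleGraph (Fin m)} {v0 : Fin m}
    {β : Finset (Fin w) → Fin m → Fin w} (hd : d = 3) (h : Bet H v0 d β) : Bet H v0 3 β := by
  subst hd
  exact h

theorem copy_of_eq {m w d : ℕ} {H : SimpleGraph (Fin m)} {v0 : Fin m}
    {β : Finset (Fin w) → Fin m → Fin w} (hd : d = 3) (h : ∃ f, Copy H (amal H v0 d β) f) :
    ∃ f, Copy H (amal H v0 3 β) f := by
  subst hd
  exact h

theorem main3 (hNOC : ST_NOC) (hCFG : ST_CFG) (hKC3 : ST_KC3)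
    (hHS : Pool.Agent.Helper77.SND.ST_HS) {m : ℕ} (H : SimpleGraph (Fin m)) (hm : 4 ≤ m)
    (h3 : ∀ S : Finset (Fin m), S.card ≤ 2 → (H.induce {v | v ∉ S}).Connected)
    (htf : H.CliqueFree 3) (hδ : H.minDegree = 3) :
    sInf (DSet H) = 2 * (H.minDegree - 1) + 1 := by
  have hC := Pool.Agent.Helper77.SND.st_SEP3 m H ⟨hm, h3⟩
  have htf' := Pool.Agent.Helper28.RS.TF_of_cliqueFree H htf
  have hK := hKC3 m H hC
  have hne : Nonempty (Fin m) := ⟨⟨0, by omega⟩⟩
  obtain ⟨v1, hv1⟩ := H.exists_minimal_degree_vertex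
  obtain ⟨v0, hv0, hmin⟩ := Finset.exists_min_image
    (Finset.univ.filter (fun v => (N H v).card = 3)) (fun v => mu H v)
    ⟨v1, by rw [Finset.mem_filter, card_N, ← hv1, hδ]; exact ⟨Finset.mem_univ _, rfl⟩⟩
  have hv0' : (N H v0).card = 3 := (Finset.mem_filter.1 hv0).2
  refine Pool.Agent.Helper77.SND.st_FIN Pool.Agent.Helper77.SND.st_GLUE m H hC
    (Pool.Agent.Helper28.RS.force_all hHS H hC)
    (Pool.Agent.Helper28.RS.crit_of_amal H htf' ⟨v0, ?_, ?_⟩)
  · rw [hδ, ← card_N, hv0']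
  · intro β hβ hf
    obtain ⟨f, hf'⟩ := copy_of_eq hδ hf
    obtain ⟨X, L, D, Φ, hc⟩ := hCFG m H v0 htf' hK hv0'
      (fun y hy => hmin y (Finset.mem_filter.2 ⟨Finset.mem_univ _, hy⟩)) _ β
      (bet_of_eq hδ hβ) f hf'
    exact hNOC m H v0 _ X L D Φ hc

end Pool.Agent.Helper58.R3
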