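import Pool.Agent.Helper28.RS.Amal
import Pool.Agent.Helper77.SND.Stmts

/-!
# MP_7ef5a1_co: 3-connected triangle-free graphs of minimum degree three

Definitions and statements of the modules.
-/

set_option autoImplicit false
open Classical

namespace Pool.Agent.Helper58.R3

open Pool.Agent.Helper28.RS (TF amal Bet)
open Pool.Agent.Helper77.SND (Copy C3)

/-- the outer boundary of `F` -/
noncomputable def nb {m : ℕ} (H : SimpleGraph (Fin m)) (F : Finset (Fin m)) : Finset (Fin m) :=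
  Finset.univ.filter (fun x => x ∉ F ∧ ∃ y ∈ F, H.Adj y x)

/-- the neighbours of `v` -/
noncomputable def N {m : ℕ} (H : SimpleGraph (Fin m)) (v : Fin m) : Finset (Fin m) :=
  Finset.univ.filter (fun x => H.Adj v x)

/-- no separation of order at most two -/
def K3 {m : ℕ} (H : SimpleGraph (Fin m)) : Prop :=
  ∀ F : Finset (Fin m), F.Nonempty → (nb H F).card ≤ 2 → ∀ x, x ∈ F ∨ x ∈ nb H F

/-- the number of vertices which dominate `v` -/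
noncomputable def mu {m : ℕ} (H : SimpleGraph (Fin m)) (v : Fin m) : ℕ :=
  (Finset.univ.filter (fun w => w ≠ v ∧ ∀ u, H.Adj v u → H.Adj w u)).card

/-! ## Part 1: the single leaf theorem -/

/-- weak endomorphism which sends `Z` to `v0` and is injective elsewhere -/
structure WE {m : ℕ} (H : SimpleGraph (Fin m)) (v0 : Fin m) (Z : Finset (Fin m))
    (ψ : Fin m → Fin m) : Prop where
  v0Z : v0 ∉ Z
  zv : ∀ z ∈ Z, ψ z = v0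
  inj : ∀ x y, x ∉ Z → y ∉ Z → ψ x = ψ y → x = y
  nv : ∀ x, x ∉ Z → ψ x ≠ v0
  hom : ∀ x y, H.Adj x y → ¬ (x ∈ Z ∧ y ∈ Z) → H.Adj (ψ x) (ψ y)

/-- `x` enters `Z` at time `i` -/
def Lay {m : ℕ} (Z : Finset (Fin m)) (ψ : Fin m → Fin m) (i : ℕ) (x : Fin m) : Prop :=
  ψ^[i] x ∈ Z ∧ ∀ j < i, ψ^[j] x ∉ Z

/-- `x` never enters `Z` -/
def Per {m : ℕ} (Z : Finset (Fin m)) (ψ : Fin m → Fin m) (x : Fin m) : Prop :=
  ∀ j, ψ^[j] x ∉ Z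

/-- the context of the single leaf theorem; `k` is the time at which `v0` enters `Z` -/
structure SLC {m : ℕ} (H : SimpleGraph (Fin m)) (v0 : Fin m) (Z : Finset (Fin m))
    (ψ : Fin m → Fin m) (k : ℕ) : Prop where
  k3 : K3 H
  we : WE H v0 Z ψ
  D3 : (nb H Z).card = 3
  deg : (N H v0).card = 3
  k1 : 1 ≤ k
  kl : Lay Z ψ k v0

/-- KEX: `v0` enters `Z`. -/
def ST_KEX : Prop := ∀ (m : ℕ) (H : SimpleGraph (Fin m)) (v0 : Fin m) (Z : Finset (Fin m))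
  (ψ : Fin m → Fin m), K3 H → WE H v0 Z ψ → Z.Nonempty → (nb H Z).card = 3 →
  (N H v0).card = 3 → ∃ k, SLC H v0 Z ψ k

/-- LYF: basic facts on the layers. -/
def ST_LYF : Prop := ∀ (m : ℕ) (H : SimpleGraph (Fin m)) (v0 : Fin m) (Z : Finset (Fin m))
  (ψ : Fin m → Fin m) (k : ℕ), SLC H v0 Z ψ k →
  (∀ x, (∃ i, Lay Z ψ i x) ∨ Per Z ψ x) ∧
  (∀ x i j, Lay Z ψ i x → Lay Z ψ j x → i = j) ∧
  (∀ x i, Lay Z ψ i x → ¬ Per Z ψ x) ∧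
  (∀ x i j, Lay Z ψ (i + j) x → Lay Z ψ j (ψ^[i] x)) ∧
  (∀ x i, Per Z ψ x → Per Z ψ (ψ^[i] x)) ∧
  (∀ i ≤ k, Lay Z ψ (k - i) (ψ^[i] v0)) ∧
  ψ^[k + 1] v0 = v0 ∧
  (∀ x y i, (∀ t < i, ψ^[t] x ∉ Z) → (∀ t < i, ψ^[t] y ∉ Z) → ψ^[i] x = ψ^[i] y → x = y) ∧
  (∀ x y i, H.Adj x y → (∀ t < i, ψ^[t] x ∉ Z ∨ ψ^[t] y ∉ Z) → H.Adj (ψ^[i] x) (ψ^[i] y)) ∧
  (∀ x y i j, Lay Z ψ i x → Lay Z ψ j y → i < j → H.Adj x y →
    ψ^[i] y ∈ nb H Z ∧ Lay Z ψ (j - i) (ψ^[i] y)) ∧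
  (∀ x y i, Lay Z ψ i x → Per Z ψ y → H.Adj x y → ψ^[i] y ∈ nb H Z ∧ Per Z ψ (ψ^[i] y))

/-- R1: the never entering elements of the boundary. -/
def ST_R1 : Prop := ∀ (m : ℕ) (H : SimpleGraph (Fin m)) (v0 : Fin m) (Z : Finset (Fin m))
  (ψ : Fin m → Fin m) (k : ℕ), SLC H v0 Z ψ k →
  (∀ q ∈ nb H Z, Per Z ψ q → H.Adj (ψ^[k] v0) q ∧ ψ^[k + 1] q ∈ nb H Z) ∧
  (∀ q, Per Z ψ q → ψ^[k + 1] q ∈ nb H Z → q ∈ nb H Z)

/-- R2: the entering elements of the boundary. -/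
def ST_R2 : Prop := ∀ (m : ℕ) (H : SimpleGraph (Fin m)) (v0 : Fin m) (Z : Finset (Fin m))
  (ψ : Fin m → Fin m) (k : ℕ), SLC H v0 Z ψ k →
  ∀ q ∈ nb H Z, ∀ t, Lay Z ψ t q → t % (k + 1) ≠ 0 →
    H.Adj (ψ^[k] v0) (ψ^[k - t % (k + 1)] v0) ∧ ψ^[k - t % (k + 1)] v0 ∈ nb H Z ∧
    ψ^[t % (k + 1) - 1] v0 ∈ nb H Z

/-- CA: no element of the orbit in the boundary. -/
def ST_CA : Prop := ∀ (m : ℕ) (H : SimpleGraph (Fin m)) (v0 : Fin m) (Z : Finset (Fin m))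
  (ψ : Fin m → Fin m) (k : ℕ), SLC H v0 Z ψ k →
  (∃ d ∈ nb H Z, ¬ Per Z ψ d) → ∃ j ≤ k, ψ^[j] v0 ∈ nb H Z

/-- CB: one element of the orbit in the boundary. -/
def ST_CB : Prop := ∀ (m : ℕ) (H : SimpleGraph (Fin m)) (v0 : Fin m) (Z : Finset (Fin m))
  (ψ : Fin m → Fin m) (k c : ℕ) (d : Fin m), SLC H v0 Z ψ k → 1 ≤ c → c ≤ k →
  ψ^[k - c] v0 ∈ nb H Z → (∀ j ≤ k, ψ^[j] v0 ∈ nb H Z → j = k - c) →
  d ∈ nb H Z → ¬ Per Z ψ d → (∀ j ≤ k, d ≠ ψ^[j] v0) → k = 1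

/-- CS: the separator argument. -/
def ST_CS : Prop := ∀ (m : ℕ) (H : SimpleGraph (Fin m)) (v0 : Fin m) (Z : Finset (Fin m))
  (ψ : Fin m → Fin m), SLC H v0 Z ψ 1 → v0 ∈ nb H Z →
  (∀ z ∈ Z, H.Adj v0 z → z = ψ v0) → ∀ d ∈ nb H Z, H.Adj (ψ v0) d

/-- two elements of the orbit in the boundary -/
structure B2 {m : ℕ} (H : SimpleGraph (Fin m)) (v0 : Fin m) (Z : Finset (Fin m))
    (ψ : Fin m → Fin m) (k c c' : ℕ) (d : Fin m) : Prop where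
  s : SLC H v0 Z ψ k
  c1 : 1 ≤ c
  c1' : 1 ≤ c'
  cc : c + c' = k + 1
  ne : c ≠ c'
  D : ∀ x, x ∈ nb H Z ↔ x = ψ^[k - c] v0 ∨ x = ψ^[k - c'] v0 ∨ x = d
  dO : ∀ j ≤ k, d ≠ ψ^[j] v0
  np : ∀ x, ¬ Per Z ψ x

/-- BS: the set up of the case of two elements. -/
def ST_BS : Prop := ∀ (m : ℕ) (H : SimpleGraph (Fin m)) (v0 : Fin m) (Z : Finset (Fin m))
  (ψ : Fin m → Fin m) (k c c' : ℕ) (d : Fin m), SLC H v0 Z ψ k → 1 ≤ c → c ≤ k →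
  1 ≤ c' → c' ≤ k → c ≠ c' → ψ^[k - c] v0 ∈ nb H Z → ψ^[k - c'] v0 ∈ nb H Z →
  d ∈ nb H Z → ¬ Per Z ψ d → (∀ j ≤ k, d ≠ ψ^[j] v0) → B2 H v0 Z ψ k c c' d

/-- LA: the edges between the layers. -/
def ST_LA : Prop := ∀ (m : ℕ) (H : SimpleGraph (Fin m)) (v0 : Fin m) (Z : Finset (Fin m))
  (ψ : Fin m → Fin m) (k c c' : ℕ) (d : Fin m), B2 H v0 Z ψ k c c' d →
  ∀ (x y : Fin m) (i j t : ℕ), Lay Z ψ i x → Lay Z ψ j y → i < j → H.Adj x y → Lay Z ψ t d →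
    (j ≤ k ∧ y = ψ^[k - j] v0 ∧ (j - i = c ∨ j - i = c')) ∨ (j - i = t ∧ ψ^[i] y = d)

/-- TZ: the layer of the third element. -/
def ST_TZ : Prop := ∀ (m : ℕ) (H : SimpleGraph (Fin m)) (v0 : Fin m) (Z : Finset (Fin m))
  (ψ : Fin m → Fin m) (k c c' : ℕ) (d : Fin m), B2 H v0 Z ψ k c c' d →
  ∀ t, Lay Z ψ t d → t = c ∨ t = c'

/-- BF: the end of the case of two elements. -/
def ST_BF : Prop := ∀ (m : ℕ) (H : SimpleGraph (Fin m)) (v0 : Fin m) (Z : Finset (Fin m))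
  (ψ : Fin m → Fin m) (k c c' : ℕ) (d : Fin m), B2 H v0 Z ψ k c c' d → Lay Z ψ c d →
  v0 ∈ nb H Z ∧ ∃ a ∈ Z, ∃ b ∈ Z, a ≠ b ∧ H.Adj v0 a ∧ H.Adj v0 b

/-- SL: the single leaf theorem. -/
def ST_SL : Prop := ∀ (m : ℕ) (H : SimpleGraph (Fin m)) (v0 : Fin m) (Z : Finset (Fin m))
  (ψ : Fin m → Fin m), K3 H → WE H v0 Z ψ → Z.Nonempty → (nb H Z).card = 3 →
  (N H v0).card = 3 →
  (∃ z ∈ Z, ∀ d ∈ nb H Z, H.Adj z d) ∨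
  (v0 ∈ nb H Z ∧ ∃ a ∈ Z, ∃ b ∈ Z, a ≠ b ∧ H.Adj v0 a ∧ H.Adj v0 b)

/-! ## Part 2: configurations -/

/-- the trace of a copy of `H` in the amalgam of the copies of `H - v0` -/
structure Cfg {m : ℕ} (H : SimpleGraph (Fin m)) (v0 : Fin m) {A : Type} (X : Finset (Fin m))
    (L D : A → Finset (Fin m)) (Φ : A → Fin m → Fin m) : Prop where
  k3 : K3 H
  deg : (N H v0).card = 3
  mn : ∀ y, (N H y).card = 3 → mu H v0 ≤ mu H y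
  cov : ∀ x, x ∈ X ∨ ∃ l, x ∈ L l
  LX : ∀ l, ∀ x ∈ L l, x ∉ X
  LL : ∀ l l' x, x ∈ L l → x ∈ L l' → l = l'
  DX : ∀ l, ∀ x ∈ D l, x ∈ X
  ind : ∀ x ∈ X, ∀ y ∈ X, ¬ H.Adj x y
  nbL : ∀ l, ∀ x ∈ L l, ∀ y, H.Adj x y → y ∈ L l ∨ y ∈ D l
  inj : ∀ l, ∀ x ∈ L l ∪ D l, ∀ y ∈ L l ∪ D l, Φ l x = Φ l y → x = y
  hom : ∀ l, ∀ x ∈ L l ∪ D l, ∀ y ∈ L l ∪ D l, H.Adj x y → H.Adj (Φ l x) (Φ l y)
  ΦL : ∀ l, ∀ x ∈ L l, Φ l x ≠ v0 ∧ ¬ H.Adj v0 (Φ l x)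
  ΦD : ∀ l, ∀ x ∈ D l, H.Adj v0 (Φ l x)
  dst : ∀ l l', (D l).card = 3 → D l = D l' → l = l'

/-- the structure given by the single leaf theorem -/
structure Cfg2 {m : ℕ} (H : SimpleGraph (Fin m)) (v0 : Fin m) {A : Type} (X : Finset (Fin m))
    (L D : A → Finset (Fin m)) (Φ : A → Fin m → Fin m) (i : Fin 3 → A) (a : Fin 3 → Fin m) :
    Prop where
  c : Cfg H v0 X L D Φ
  D3 : ∀ l, (L l).Nonempty → (D l).card = 3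
  nbD : ∀ l, (L l).Nonempty → nb H (L l) = D l
  out : ∀ l, ∃ z, z ∉ L l ∧ z ∉ D l
  ii : Function.Injective i
  aL : ∀ j, a j ∈ L (i j)
  Nv : ∀ x, H.Adj v0 x ↔ ∃ j, x = a j
  vX : v0 ∈ X
  vD : ∀ j, v0 ∈ D (i j)
  vo : ∀ l, (L l).Nonempty → v0 ∈ D l → ∃ j, l = i j

/-- LEAF: counting for one leaf. -/
def ST_LEAF : Prop := ∀ (m : ℕ) (H : SimpleGraph (Fin m)) (v0 : Fin m) (A : Type)
  (X : Finset (Fin m)) (L D : A → Finset (Fin m)) (Φ : A → Fin m → Fin m),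
  Cfg H v0 X L D Φ → ∀ l,
    (∃ z, z ∉ L l ∧ z ∉ D l) ∧ ((L l).Nonempty → (D l).card = 3 ∧ nb H (L l) = D l ∧
      nb H (Finset.univ \ (L l ∪ D l)) = D l ∧
      ¬ ∃ z, z ∉ L l ∧ z ∉ D l ∧ ∀ d ∈ D l, H.Adj z d)

/-- TRI: the three leaves at `v0`. -/
def ST_TRI : Prop := ∀ (m : ℕ) (H : SimpleGraph (Fin m)) (v0 : Fin m) (A : Type)
  (X : Finset (Fin m)) (L D : A → Finset (Fin m)) (Φ : A → Fin m → Fin m),
  Cfg H v0 X L D Φ → ∃ (i : Fin 3 → A) (a : Fin 3 → Fin m), Cfg2 H v0 X L D Φ i a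

/-- `Θ` is an injective homomorphism on `K` and its boundary -/
structure Emb {m : ℕ} (H : SimpleGraph (Fin m)) (K : Finset (Fin m)) (Θ : Fin m → Fin m) :
    Prop where
  inj : ∀ x ∈ K ∪ nb H K, ∀ y ∈ K ∪ nb H K, Θ x = Θ y → x = y
  hom : ∀ x ∈ K ∪ nb H K, ∀ y ∈ K ∪ nb H K, H.Adj x y → H.Adj (Θ x) (Θ y)

/-- a piece -/
structure Pc {m : ℕ} (H : SimpleGraph (Fin m)) (v0 : Fin m) (K : Finset (Fin m))
    (Θ : Fin m → Fin m) : Prop where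
  c3 : (nb H K).card = 3
  emb : Emb H K Θ
  nv : ∀ x ∈ K, Θ x ≠ v0
  D : ∀ x ∈ nb H K, H.Adj v0 (Θ x)
  edge : ∃ x ∈ K, ∃ y ∈ K, H.Adj x y

/-- there is no piece with at most `n` vertices -/
def NoPc {m : ℕ} (H : SimpleGraph (Fin m)) (v0 : Fin m) (n : ℕ) : Prop :=
  ∀ K Θ, Pc H v0 K Θ → n < K.card

/-- AV: avoiding a leaf. -/
def ST_AV : Prop := ∀ (m : ℕ) (H : SimpleGraph (Fin m)) (v0 : Fin m) (A : Type)
  (X : Finset (Fin m)) (L D : A → Finset (Fin m)) (Φ : A → Fin m → Fin m) (i : Fin 3 → A)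
  (a : Fin 3 → Fin m), Cfg2 H v0 X L D Φ i a → ∀ n, NoPc H v0 n →
  ∀ (K : Finset (Fin m)) (Θ : Fin m → Fin m) (l : A), K.card ≤ n + 1 → (nb H K).card = 3 →
    Emb H K Θ → (∀ x ∈ nb H K, Θ x ∉ L l) → (∃ x ∈ nb H K, Θ x ∉ X) → ∀ x ∈ K, Θ x ∉ L l

/-- the class of the parts of the pieces -/
structure KC {m : ℕ} (H : SimpleGraph (Fin m)) (v0 : Fin m) {A : Type}
    (L D : A → Finset (Fin m)) (i : Fin 3 → A) (a : Fin 3 → Fin m) (K : Finset (Fin m))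
    (j : Fin 3) (Θ : Fin m → Fin m) : Prop where
  ne : K.Nonempty
  c3 : (nb H K).card = 3
  emb : Emb H K Θ
  KL : ∀ x ∈ K, Θ x ∈ L (i j) ∧ Θ x ≠ a j
  ND : ∀ x ∈ nb H K, Θ x = a j ∨ (Θ x ∈ D (i j) ∧ Θ x ≠ v0)

/-- VK: the parts of a piece. -/
def ST_VK : Prop := ∀ (m : ℕ) (H : SimpleGraph (Fin m)) (v0 : Fin m) (A : Type)
  (X : Finset (Fin m)) (L D : A → Finset (Fin m)) (Φ : A → Fin m → Fin m) (i : Fin 3 → A)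
  (a : Fin 3 → Fin m), Cfg2 H v0 X L D Φ i a → ∀ n, NoPc H v0 n →
  ∀ (K : Finset (Fin m)) (Θ : Fin m → Fin m), Pc H v0 K Θ → K.card ≤ n + 1 →
    (∀ l, (∀ j, l ≠ i j) → ∀ x ∈ K, Θ x ∉ L l) ∧
    (∀ j, ∃ x ∈ nb H K, Θ x = a j) ∧
    ∀ j, (K.filter (fun x => Θ x ∈ L (i j))).Nonempty →
      KC H v0 L D i a (K.filter (fun x => Θ x ∈ L (i j))) j Θ ∧
      (K.filter (fun x => Θ x ∈ L (i j))).card < K.card

/-- KK: the descent. -/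
def ST_KK : Prop := ∀ (m : ℕ) (H : SimpleGraph (Fin m)) (v0 : Fin m) (A : Type)
  (X : Finset (Fin m)) (L D : A → Finset (Fin m)) (Φ : A → Fin m → Fin m) (i : Fin 3 → A)
  (a : Fin 3 → Fin m), Cfg2 H v0 X L D Φ i a → ∀ n, NoPc H v0 n →
  ∀ (K : Finset (Fin m)) (j s : Fin 3) (Θ : Fin m → Fin m), KC H v0 L D i a K j Θ →
    K.card ≤ n + 1 → Φ (i j) v0 = a s → Φ (i j) (a j) ∈ X →
    (∀ l, (∀ t, t ≠ s → l ≠ i t) → ∀ x ∈ K, Φ (i j) (Θ x) ∉ L l) ∧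
    (∃ x ∈ nb H K, Φ (i j) (Θ x) = Φ (i j) (a j)) ∧
    (∀ x ∈ K ∪ nb H K, ∀ y ∈ K ∪ nb H K, H.Adj x y →
      H.Adj (Φ (i j) (Θ x)) (Φ (i j) (Θ y))) ∧
    ∀ t, t ≠ s → (K.filter (fun x => Φ (i j) (Θ x) ∈ L (i t))).Nonempty →
      KC H v0 L D i a (K.filter (fun x => Φ (i j) (Θ x) ∈ L (i t))) t
        (fun x => Φ (i j) (Θ x)) ∧
      (K.filter (fun x => Φ (i j) (Θ x) ∈ L (i t))).card < K.card

/-- CN: the vertex `a j` with a neighbour in `X` different from `v0`. -/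
def ST_CN : Prop := ∀ (m : ℕ) (H : SimpleGraph (Fin m)) (v0 : Fin m) (A : Type)
  (X : Finset (Fin m)) (L D : A → Finset (Fin m)) (Φ : A → Fin m → Fin m) (i : Fin 3 → A)
  (a : Fin 3 → Fin m), Cfg2 H v0 X L D Φ i a →
  ∀ (j : Fin 3) (x : Fin m), x ∈ X → x ≠ v0 → H.Adj (a j) x →
    Φ (i j) (a j) ∈ X ∧ Φ (i j) (a j) ≠ v0 ∧ x ∈ D (i j) ∧
    ∃ p q, p ≠ q ∧ Φ (i j) v0 = a p ∧ Φ (i j) x = a q ∧ H.Adj (Φ (i j) (a j)) (a p) ∧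
      H.Adj (Φ (i j) (a j)) (a q) ∧ Φ (i j) (a j) ∈ D (i p) ∧ Φ (i j) (a j) ∈ D (i q)

/-- DIST: two of the three neighbours of `v0` have a common neighbour in `X`. -/
def ST_DIST : Prop := ∀ (m : ℕ) (H : SimpleGraph (Fin m)) (v0 : Fin m) (A : Type)
  (X : Finset (Fin m)) (L D : A → Finset (Fin m)) (Φ : A → Fin m → Fin m) (i : Fin 3 → A)
  (a : Fin 3 → Fin m), Cfg2 H v0 X L D Φ i a →
  ∃ (s t : Fin 3) (x : Fin m), s ≠ t ∧ x ∈ X ∧ x ≠ v0 ∧ H.Adj (a s) x ∧ H.Adj (a t) x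

/-- EO: the case where all indices are good. -/
def ST_EO : Prop := ∀ (m : ℕ) (H : SimpleGraph (Fin m)) (v0 : Fin m) (A : Type)
  (X : Finset (Fin m)) (L D : A → Finset (Fin m)) (Φ : A → Fin m → Fin m) (i : Fin 3 → A)
  (a : Fin 3 → Fin m), Cfg2 H v0 X L D Φ i a → ∀ n, NoPc H v0 n →
  (∀ j, Φ (i j) (a j) ∈ X) → NoPc H v0 (n + 1)

/-- NG: the case of a bad index. -/
def ST_NG : Prop := ∀ (m : ℕ) (H : SimpleGraph (Fin m)) (v0 : Fin m) (A : Type)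
  (X : Finset (Fin m)) (L D : A → Finset (Fin m)) (Φ : A → Fin m → Fin m) (i : Fin 3 → A)
  (a : Fin 3 → Fin m), Cfg2 H v0 X L D Φ i a → ∀ n, NoPc H v0 n →
  ∀ (s t r : Fin 3) (x : Fin m), s ≠ t → r ≠ s → r ≠ t → x ∈ X → x ≠ v0 → H.Adj (a s) x →
    H.Adj (a t) x → (∀ z ∈ X, z ≠ v0 → ¬ H.Adj (a r) z) → NoPc H v0 (n + 1)

/-- CLS: there are no pieces. -/
def ST_CLS : Prop := ∀ (m : ℕ) (H : SimpleGraph (Fin m)) (v0 : Fin m) (A : Type)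
  (X : Finset (Fin m)) (L D : A → Finset (Fin m)) (Φ : A → Fin m → Fin m) (i : Fin 3 → A)
  (a : Fin 3 → Fin m), Cfg2 H v0 X L D Φ i a → ∀ K Θ, ¬ Pc H v0 K Θ

/-- SZ: every vertex of a leaf has a neighbour in the leaf. -/
def ST_SZ : Prop := ∀ (m : ℕ) (H : SimpleGraph (Fin m)) (v0 : Fin m) (A : Type)
  (X : Finset (Fin m)) (L D : A → Finset (Fin m)) (Φ : A → Fin m → Fin m) (i : Fin 3 → A)
  (a : Fin 3 → Fin m), Cfg2 H v0 X L D Φ i a → ∀ l, ∀ y ∈ L l, ∃ z ∈ L l, H.Adj y z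

/-- NOC: there is no configuration. -/
def ST_NOC : Prop := ∀ (m : ℕ) (H : SimpleGraph (Fin m)) (v0 : Fin m) (A : Type)
  (X : Finset (Fin m)) (L D : A → Finset (Fin m)) (Φ : A → Fin m → Fin m),
  ¬ Cfg H v0 X L D Φ

/-- CFG: a copy of `H` in the amalgam gives a configuration. -/
def ST_CFG : Prop := ∀ (m : ℕ) (H : SimpleGraph (Fin m)) (v0 : Fin m), TF H → K3 H →
  (N H v0).card = 3 → (∀ y, (N H y).card = 3 → mu H v0 ≤ mu H y) →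
  ∀ (w : ℕ) (β : Finset (Fin w) → Fin m → Fin w), Bet H v0 3 β →
  ∀ f, Copy H (amal H v0 3 β) f →
  ∃ (X : Finset (Fin m)) (L D : Finset (Fin w) → Finset (Fin m))
    (Φ : Finset (Fin w) → Fin m → Fin m), Cfg H v0 X L D Φ

/-- KC3: the two forms of 3-connectivity. -/
def ST_KC3 : Prop := ∀ (m : ℕ) (H : SimpleGraph (Fin m)), C3 H → K3 H

end Pool.Agent.Helper58.R3
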